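import Pool.Agent.X254.HC.Fin

set_option autoImplicit false

/-!
# `X^μ_N` is central in `e_μ H(S_n) e_μ`

All definitions are in `Pool/Agent/X254/HC/Defs.lean` and the first lines of
`Pool/Agent/X254/HC/Perm.lean`: the algebra `Hecke n` is `H(S_n)` over `ℂ(q)` by generators and
relations, `TT σ` is `T_σ` (product of the generators along a chosen reduced word), `nn μ` is
`n = μ_1 + ... + μ_{N+1}`, `mm μ k` is `m_k`, `Smu μ` is `S_μ`, `emu μ` is `e_μ`, `Tgamma μ` is
`T_{γ_μ}` (an invertible element), `Anti` is `A_{N+1}` in `H(S_n)`, and `Xmu μ` is `X^μ_N`.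

Proof. Let `z` be the sum of `T_d A T_{d⁻¹}` over the minimal representatives `d` of the cosets of
`S_{N+1} × S_{n-N-1}` (one for each subset `D` of `{0, ..., n-1}` with `N + 1` elements); `z` is
central in `H(S_n)`. If `D` has two elements in one block of `μ`, then `e_μ T_d A = 0`; otherwise
`e_μ T_d A T_{d⁻¹} e_μ` is a power of `q ^ 2` times `e_μ T_γ A T_{γ⁻¹} e_μ`. Finally
`A T_γ⁻¹ e_μ = A T_{γ⁻¹} e_μ`. So `e_μ z e_μ` is a nonzero scalar times `X^μ_N`.
-/

namespace Pool.Agent.Results.MP_613bd6_al.Centrality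

open Pool.Agent.X254.HC

/-- For all `N` and all positive integers `μ_1, ..., μ_{N+1}`: (1) `T_σ` is the product of the
generators along every reduced word of `σ`; (2) `X^μ_N` is `z e_μ` for an element `z` of the centre
of `H(S_n)`; (3) `X^μ_N` commutes with every element of `e_μ H(S_n) e_μ`. -/
theorem result (N : ℕ) (μ : Fin (N + 1) → ℕ) (hμ : ∀ k, 0 < μ k) :
    (∀ (n : ℕ) (w : List (Fin (n - 1))), IsReduced n w →
      TT (wordPerm n w) = (w.map (T n)).prod) ∧
    (∃ z : Hecke (nn μ), (∀ x : Hecke (nn μ), x * z = z * x) ∧ Xmu μ hμ = z * emu μ) ∧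
    ∀ h : Hecke (nn μ), (∃ x : Hecke (nn μ), h = emu μ * x * emu μ) →
      Xmu μ hμ * h = h * Xmu μ hμ := by
  refine ⟨fun n w hw => ?_, exists_central μ hμ, ?_⟩
  · rw [TT_word hw, pt_tt]
  · rintro h ⟨x, rfl⟩
    exact central μ hμ x

end Pool.Agent.Results.MP_613bd6_al.Centrality
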